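import Mathlib
import Pool.Agent.Work.MP_cd69b0_an.Final

open MeasureTheory
open scoped ENNReal

/-- Positive answer to Q1 for every exponent `r ∈ [1,∞)` and both scalar fields: the Bochner space
`L_∞([0,1]; L_r[0,1])` is isomorphic (linearly homeomorphic) to the `ℓ_∞`-sum
`B_{r,∞} = (⊕_{n ≥ 1} ℓ_r^n)_{ℓ_∞}`. -/
theorem Pool.Agent.Results.MP_cd69b0_an.LinftyLr.result (𝕜 : Type*) [RCLike 𝕜]
    (r : ℝ≥0∞) [Fact (1 ≤ r)] (hr : r ≠ ∞) :
    Nonempty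
      (Lp (Lp 𝕜 r (volume : Measure unitInterval)) ∞ (volume : Measure unitInterval) ≃L[𝕜]
        lp (fun n : ℕ+ => PiLp r (fun _ : Fin n => 𝕜)) ∞) :=
  Pool.Agent.Work.MP_cd69b0_an.main hr
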